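import Pool.Agent.Y703.CT.StmA

/-! Minimality of `y² + D y = x³`. -/

set_option autoImplicit false

namespace Pool.Agent.Y288.CT

open Pool.Agent.W97.MT (IsGloballyMinimal)
open Pool.Agent.Y703.CT

theorem WD_Δ (D : ℤ) : (WD D).Δ = -27 * D ^ 4 := by
  simp only [WD, WeierstrassCurve.Δ, WeierstrassCurve.b₂, WeierstrassCurve.b₄,
    WeierstrassCurve.b₆, WeierstrassCurve.b₈]
  ring

theorem den_one {D n : ℕ} (hD : Base D) (h : n ^ 12 ∣ 27 * D ^ 4) : n = 1 := by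
  obtain ⟨h0, h3, hp3⟩ := hD
  by_contra hn
  obtain ⟨p, hp, hpn⟩ := Nat.exists_prime_and_dvd hn
  have h1 : p ^ 12 ∣ 27 * D ^ 4 := (pow_dvd_pow_of_dvd hpn 12).trans h
  by_cases hp' : p = 3
  · subst hp'
    have hc : Nat.Coprime (3 ^ 12) (D ^ 4) := by
      apply Nat.Coprime.pow
      exact (Nat.Prime.coprime_iff_not_dvd Nat.prime_three).2 h3
    have h2 := hc.dvd_of_dvd_mul_right h1
    have h4 := Nat.le_of_dvd (by norm_num) h2
    norm_num at h4
  · have hc : Nat.Coprime (p ^ 12) 27 := by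
      rw [show (27 : ℕ) = 3 ^ 3 by norm_num]
      apply Nat.Coprime.pow
      exact (Nat.coprime_primes hp Nat.prime_three).2 hp'
    have h2 := hc.dvd_of_dvd_mul_left h1
    have h4 : (p ^ 3) ^ 4 ∣ D ^ 4 := by
      rw [← pow_mul]
      exact h2
    exact hp3 p hp ((Nat.pow_dvd_pow_iff (by norm_num)).1 h4)

theorem t_MIN : S_MIN := by
  intro D hD
  have hΔ := WD_Δ D
  have hD0 : (D : ℤ) ≠ 0 := by exact_mod_cast hD.1
  refine ⟨?_, ?_⟩
  · rw [hΔ]
    exact mul_ne_zero (by norm_num) (pow_ne_zero _ hD0)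
  · intro W' C h
    have h1 := congrArg WeierstrassCurve.Δ h
    rw [WeierstrassCurve.variableChange_Δ, WeierstrassCurve.map_Δ, WeierstrassCurve.map_Δ] at h1
    simp only [eq_intCast] at h1
    obtain ⟨q, hq⟩ : ∃ q : ℚ, q = ((C.u⁻¹ : ℚˣ) : ℚ) := ⟨_, rfl⟩
    rw [← hq] at h1
    have hq0 : q ≠ 0 := by rw [hq]; exact Units.ne_zero _
    have h2 : (q.num : ℚ) ^ 12 * ((WD D).Δ : ℚ) = (W'.Δ : ℚ) * (q.den : ℚ) ^ 12 := by
      have hd : (q.den : ℚ) ≠ 0 := by exact_mod_cast q.den_ne_zero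
      rw [← h1]
      have hnd : q * q.den = q.num := Rat.mul_den_eq_num q
      rw [← hnd]
      ring
    have h3 : q.num ^ 12 * (WD D).Δ = W'.Δ * (q.den : ℤ) ^ 12 := by exact_mod_cast h2
    have hcop : IsCoprime ((q.den : ℤ) ^ 12) (q.num ^ 12) := by
      refine IsCoprime.pow ?_
      rw [Int.isCoprime_iff_gcd_eq_one, Int.gcd_comm]
      exact q.reduced
    have h4 : (q.den : ℤ) ^ 12 ∣ (WD D).Δ :=
      hcop.dvd_of_dvd_mul_left ⟨W'.Δ, by rw [h3]; ring⟩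
    have h5 : q.den ^ 12 ∣ 27 * D ^ 4 := by
      have h6 : ((q.den ^ 12 : ℕ) : ℤ) ∣ ((27 * D ^ 4 : ℕ) : ℤ) := by
        push_cast
        refine h4.trans ?_
        rw [hΔ]
        exact ⟨-1, by ring⟩
      exact_mod_cast h6
    have h8 := den_one hD h5
    rw [h8] at h3
    have h9 : W'.Δ = q.num ^ 12 * (WD D).Δ := by rw [h3]; simp
    rw [h9, abs_mul]
    have h10 : 1 ≤ |q.num ^ 12| := by
      apply Int.one_le_abs
      exact pow_ne_zero _ (Rat.num_ne_zero.2 hq0)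
    nlinarith [abs_nonneg (WD D).Δ]

end Pool.Agent.Y288.CT
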